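import Pool.Agent.H88.CL.Basic

/-!
`MP_43af95_an`, closing lemma: row UCD (uniform continuity of the second derivative).
-/

set_option autoImplicit false

open Set Function Topology Metric Filter

namespace Pool.Agent.H40.CL

open Pool.Agent.H88.CL

/-- every vector is the sum of a lattice vector and a vector of norm at most `√d` -/
theorem red {d : ℕ} (x : E d) : ∃ y z : E d, z ∈ Lat d ∧ x = y + z ∧ ‖y‖ ≤ Real.sqrt d := by
  set z : E d := WithLp.toLp 2 fun i => ((⌊x i⌋ : ℤ) : ℝ) with hz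
  have hzi : ∀ i, z i = ((⌊x i⌋ : ℤ) : ℝ) := fun i => rfl
  refine ⟨x - z, z, fun i => ⟨⌊x i⌋, hzi i⟩, by abel, ?_⟩
  rw [EuclideanSpace.norm_eq]
  apply Real.sqrt_le_sqrt
  have h1 : ∀ i : Fin d, ‖(x - z) i‖ ^ 2 ≤ 1 := by
    intro i
    have h2 : (x - z) i = x i - ((⌊x i⌋ : ℤ) : ℝ) := by
      rw [← hzi i]
      rfl
    rw [h2, Real.norm_eq_abs, sq_abs]
    have h3 := Int.floor_le (x i)
    have h4 := (Int.lt_floor_add_one (x i)).le
    nlinarith
  calc ∑ i, ‖(x - z) i‖ ^ 2 ≤ ∑ _i : Fin d, (1 : ℝ) := Finset.sum_le_sum fun i _ => h1 i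
    _ = d := by simp

theorem pf_UCD (h : T_CON) : T_UCD := by
  intro d F F' hF η hη
  -- the derivatives are periodic
  have hc : Continuous F := hF.c2.continuous
  have hper : ∀ z ∈ Lat d, ∃ c : E d, ∀ x, F (x + z) = F x + c := by
    intro z hz
    refine ⟨F (0 + z) - F 0, fun x => ?_⟩
    have h1 := h d (fun x => F (x + z) - F x) ((hc.comp (continuous_id.add continuous_const)).sub hc)
      (fun x => hF.per x z hz) x 0
    have h2 : F (x + z) - F x = F (0 + z) - F 0 := h1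
    rw [← h2]
    abel
  have hd1 : ∀ z ∈ Lat d, ∀ x, fderiv ℝ F (x + z) = fderiv ℝ F x := by
    intro z hz x
    obtain ⟨c, hcz⟩ := hper z hz
    have h1 : (fun x => F (x + z)) = fun x => F x + c := funext hcz
    rw [← fderiv_comp_add_right z, h1, fderiv_add_const]
  have hd2 : ∀ z ∈ Lat d, ∀ x, fderiv ℝ (fderiv ℝ F) (x + z) = fderiv ℝ (fderiv ℝ F) x := by
    intro z hz x
    have h1 : (fun x => fderiv ℝ F (x + z)) = fderiv ℝ F := funext (hd1 z hz)
    rw [← fderiv_comp_add_right z, h1]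
  have hcont : Continuous (fderiv ℝ (fderiv ℝ F)) := by
    have h1 : ContDiff ℝ 1 (fderiv ℝ F) := hF.c2.fderiv_right (m := 1) (by norm_num)
    exact h1.continuous_fderiv (by norm_num)
  have hK : IsCompact (closedBall (0 : E d) (Real.sqrt d + 1)) := isCompact_closedBall _ _
  have huc : UniformContinuousOn (fderiv ℝ (fderiv ℝ F)) (closedBall (0 : E d) (Real.sqrt d + 1)) :=
    hK.uniformContinuousOn_of_continuous (f := fderiv ℝ (fderiv ℝ F)) hcont.continuousOn
  obtain ⟨δ, hδ, hδ'⟩ := (Metric.uniformContinuousOn_iff (f := fderiv ℝ (fderiv ℝ F))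
    (s := closedBall (0 : E d) (Real.sqrt d + 1))).1 huc η hη
  refine ⟨min (δ / 2) 1, lt_min (by linarith) one_pos, fun x t ht => ?_⟩
  obtain ⟨y, z, hz, rfl, hy⟩ := red x
  have ht1 : ‖t‖ ≤ 1 := ht.trans (min_le_right _ _)
  have ht2 : ‖t‖ ≤ δ / 2 := ht.trans (min_le_left _ _)
  have e1 : y + z + t = (y + t) + z := by abel
  rw [e1, hd2 z hz, hd2 z hz]
  have hgoal : dist (fderiv ℝ (fderiv ℝ F) (y + t)) (fderiv ℝ (fderiv ℝ F) y) ≤ η →
      ‖fderiv ℝ (fderiv ℝ F) (y + t) - fderiv ℝ (fderiv ℝ F) y‖ ≤ η := fun h =>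
    (le_of_eq (dist_eq_norm (fderiv ℝ (fderiv ℝ F) (y + t)) (fderiv ℝ (fderiv ℝ F) y)).symm).trans h
  refine hgoal (hδ' (y + t) ?_ y ?_ ?_).le
  · rw [mem_closedBall, dist_zero_right]
    exact (norm_add_le _ _).trans (by linarith)
  · rw [mem_closedBall, dist_zero_right]
    linarith
  · rw [dist_eq_norm, add_sub_cancel_left]
    linarith

end Pool.Agent.H40.CL
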